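import Pool.Agent.Helper26.DA.Goals

/-!
# DA, packet MDL: the model `V i = H_i(F ⊗ k)`
-/

set_option autoImplicit false

namespace Pool.Agent.Helper27.DA

open IsLocalRing
open Pool.Agent.Helper26.DA

universe u v w

section

variable {A : Type u} [CommRing A] [IsLocalRing A] {B : Type v} [CommRing B] [Algebra A B]

/-- the submodule of the boundaries in the cycles -/
def qq (F : FC A) (i : ℕ) : Submodule A (Zc F i) := (Bd F i).comap (Zc F i).subtype

/-- the homology of `F ⊗ k` -/
def VV (F : FC A) (i : ℕ) : Type u := Zc F i ⧸ qq F i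

instance (F : FC A) (i : ℕ) : AddCommGroup (VV F i) :=
  inferInstanceAs (AddCommGroup (Zc F i ⧸ qq F i))

instance (F : FC A) (i : ℕ) : Module A (VV F i) :=
  inferInstanceAs (Module A (Zc F i ⧸ qq F i))

/-- the quotient map -/
def mk (F : FC A) (i : ℕ) : Zc F i →ₗ[A] VV F i := (qq F i).mkQ

lemma mk_surj (F : FC A) (i : ℕ) : Function.Surjective (mk F i) := Submodule.mkQ_surjective _

lemma mk_eq_zero (F : FC A) (i : ℕ) (z : Zc F i) :
    mk F i z = 0 ↔ (z : Fin (F.r i) → A) ∈ Bd F i := by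
  exact Submodule.Quotient.mk_eq_zero (qq F i) (x := z)

lemma mk_eq (F : FC A) (i : ℕ) (z w : Zc F i) :
    mk F i z = mk F i w ↔ (z : Fin (F.r i) → A) - w ∈ Bd F i := by
  rw [← sub_eq_zero, ← map_sub, mk_eq_zero]
  rfl

/-- descend linear maps from the cycles -/
def lft (F : FC A) (i : ℕ) {M : Type u} [AddCommGroup M] [Module A M] (f : Zc F i →ₗ[A] M)
    (hf : ∀ z : Zc F i, (z : Fin (F.r i) → A) ∈ Bd F i → f z = 0) : VV F i →ₗ[A] M :=
  (qq F i).liftQ f (fun z hz => hf z hz)

lemma lft_mk (F : FC A) (i : ℕ) {M : Type u} [AddCommGroup M] [Module A M] (f : Zc F i →ₗ[A] M)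
    (hf : ∀ z : Zc F i, (z : Fin (F.r i) → A) ∈ Bd F i → f z = 0) (z : Zc F i) :
    lft F i f hf (mk F i z) = f z := rfl

end

theorem gMDL : Pool.Agent.Helper26.DA.G_MDL.{u, v} := by
  intro hBAS A _ _ B _ _ F act e a ha
  obtain ⟨b1, b2, b3, b4, b5, b6, b7⟩ := hBAS A F e a ha
  -- the action of a chain map
  let act0 : ∀ (f : Fam F), IsCh F f → ∀ i, VV F i →ₗ[A] VV F i := fun f hf i =>
    lft F i ((mk F i).comp ((f i).restrict (p := Zc F i) (q := Zc F i)
      (fun z hz => b4 f hf i z hz))) (fun z hz => by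
        rw [LinearMap.comp_apply, mk_eq_zero]
        exact b5 f hf i z hz)
  have act0_mk : ∀ (f : Fam F) (hf : IsCh F f) (i : ℕ) (z : Zc F i),
      act0 f hf i (mk F i z) = mk F i ⟨f i z, b4 f hf i z z.2⟩ := fun f hf i z => rfl
  let sm : ∀ i, SMul B (VV F i) := fun i => ⟨fun b v => act0 (act.ρ b) (act.ch b) i v⟩
  have sm_mk : ∀ (i : ℕ) (b : B) (z : Zc F i), (sm i).smul b (mk F i z) =
      mk F i ⟨act.ρ b i z, b4 _ (act.ch b) i z z.2⟩ := fun i b z => rfl
  let mo : ∀ i, Module B (VV F i) := fun i =>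
    letI := sm i
    Module.ofMinimalAxioms
      (by
        intro b x y
        exact map_add (act0 (act.ρ b) (act.ch b) i) x y)
      (by
        intro b c x
        obtain ⟨z, rfl⟩ := mk_surj F i x
        show (sm i).smul (b + c) (mk F i z) = (sm i).smul b (mk F i z) + (sm i).smul c (mk F i z)
        rw [sm_mk, sm_mk, sm_mk, ← map_add, mk_eq]
        exact b6 _ _ (act.add b c) i z z.2)
      (by
        intro b c x
        obtain ⟨z, rfl⟩ := mk_surj F i x
        show (sm i).smul (b * c) (mk F i z) = (sm i).smul b ((sm i).smul c (mk F i z))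
        rw [sm_mk, sm_mk, sm_mk, mk_eq]
        exact b6 _ _ (act.mul b c) i z z.2)
      (by
        intro x
        obtain ⟨z, rfl⟩ := mk_surj F i x
        show (sm i).smul 1 (mk F i z) = mk F i z
        rw [sm_mk, mk_eq]
        exact b6 _ _ act.one i z z.2)
  have mo_mk : ∀ (i : ℕ) (b : B) (z w : Zc F i), (w : Fin (F.r i) → A) = act.ρ b i z →
      (mo i).toSMul.smul b (mk F i z) = mk F i w := by
    intro i b z w hw
    show (sm i).smul b (mk F i z) = mk F i w
    rw [sm_mk]
    congr 1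
    exact Subtype.ext hw.symm
  -- uniqueness of the coefficients
  have uq : ∀ (i : ℕ) (y y' : Fin e → Zc F i),
      ∑ l, a l • (y l : Fin (F.r i) → A) = ∑ l, a l • (y' l : Fin (F.r i) → A) →
      ∀ l, mk F i (y l) = mk F i (y' l) := by
    intro i y y' h l
    rw [mk_eq]
    have h1 : ∑ l, a l • ((y l : Fin (F.r i) → A) - y' l) = 0 := by
      simp only [smul_sub, Finset.sum_sub_distrib]
      rw [h, sub_self]
    have h2 := b2 (F.r i) (fun l => (y l : Fin (F.r i) → A) - y' l) h1 l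
    exact Submodule.mem_sup_right h2
  have ex : ∀ (i : ℕ) (z : Zc F (i + 1)), ∃ y : Fin e → Zc F i,
      F.d i z = ∑ l, a l • (y l : Fin (F.r i) → A) := by
    intro i z
    obtain ⟨y, hy⟩ := b1 (F.r i) (F.d i z) z.2
    exact ⟨fun l => ⟨y l, b7 i z y hy l⟩, hy⟩
  choose Y hY using ex
  let D0 : Fin e → ∀ i, Zc F (i + 1) →ₗ[A] VV F i := fun l i =>
    { toFun := fun z => mk F i (Y i z l)
      map_add' := by
        intro z w
        rw [← map_add]
        refine uq i (Y i (z + w)) (fun l => Y i z l + Y i w l) ?_ l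
        rw [← hY i (z + w)]
        simp only [Submodule.coe_add, smul_add, Finset.sum_add_distrib, map_add]
        rw [← hY i z, ← hY i w]
      map_smul' := by
        intro c z
        rw [RingHom.id_apply, ← map_smul]
        refine uq i (Y i (c • z)) (fun l => c • Y i z l) ?_ l
        rw [← hY i (c • z)]
        simp only [Submodule.coe_smul, map_smul]
        rw [hY i z, Finset.smul_sum]
        refine Finset.sum_congr rfl fun l _ => ?_
        rw [smul_comm] }
  have D0_of : ∀ (l : Fin e) (i : ℕ) (z : Zc F (i + 1)) (y : Fin e → Zc F i),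
      F.d i z = ∑ l, a l • (y l : Fin (F.r i) → A) → D0 l i z = mk F i (y l) := by
    intro l i z y hy
    exact uq i (Y i z) y (by rw [← hY i z, hy]) l
  have D0_ker : ∀ (l : Fin e) (i : ℕ) (z : Zc F (i + 1)),
      (z : Fin (F.r (i + 1)) → A) ∈ Bd F (i + 1) → D0 l i z = 0 := by
    intro l i z hz
    obtain ⟨x, hx, μ, hμ, hxz⟩ := Submodule.mem_sup.1 hz
    obtain ⟨w, rfl⟩ := LinearMap.mem_range.1 hx
    obtain ⟨m, hm⟩ := b1 (F.r (i + 1)) μ hμ
    have hB : ∀ l, F.d i (m l) ∈ Bd F i := fun l =>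
      Submodule.mem_sup_left (LinearMap.mem_range_self _ _)
    have h1 : F.d i z = ∑ l, a l • F.d i (m l) := by
      rw [← hxz, map_add, F.dd i w, zero_add, hm, map_sum]
      simp only [map_smul]
    rw [D0_of l i z (fun l => ⟨F.d i (m l), b3 i (hB l)⟩) h1, mk_eq_zero]
    exact hB l
  let D1 : Fin e → ∀ i, VV F (i + 1) →ₗ[A] VV F i := fun l i =>
    lft F (i + 1) (D0 l i) (D0_ker l i)
  have D1_mk : ∀ (l : Fin e) (i : ℕ) (z : Zc F (i + 1)), D1 l i (mk F (i + 1) z) = D0 l i z :=
    fun l i z => rfl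
  have D1_smul : ∀ (l : Fin e) (i : ℕ) (b : B) (v : VV F (i + 1)),
      D1 l i ((mo (i + 1)).toSMul.smul b v) = (mo i).toSMul.smul b (D1 l i v) := by
    intro l i b v
    obtain ⟨z, rfl⟩ := mk_surj F (i + 1) v
    rw [mo_mk (i + 1) b z ⟨act.ρ b (i + 1) z, b4 _ (act.ch b) (i + 1) z z.2⟩ rfl, D1_mk, D1_mk]
    rw [D0_of l i z (Y i z) (hY i z)]
    rw [mo_mk i b (Y i z l) ⟨act.ρ b i (Y i z l), b4 _ (act.ch b) i _ (Y i z l).2⟩ rfl]
    refine D0_of l i _ (fun l => ⟨act.ρ b i (Y i z l), b4 _ (act.ch b) i _ (Y i z l).2⟩) ?_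
    show F.d i (act.ρ b (i + 1) z) = _
    rw [act.ch b i z, hY i z, map_sum]
    simp only [map_smul]
  exact ⟨{
    V := VV F
    grp := fun i => inferInstance
    mod := mo
    π := fun i => (mk F i).toAddMonoidHom
    surj := fun i => mk_surj F i
    ker := fun i z => mk_eq_zero F i z
    smul := fun i b z w hw => mo_mk i b z w hw
    D := fun l i =>
      letI := mo i
      letI := mo (i + 1)
      { toFun := D1 l i
        map_add' := fun x y => map_add (D1 l i) x y
        map_smul' := fun b v => D1_smul l i b v }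
    Dsp := fun i z y hy l => D0_of l i z y hy }⟩

end Pool.Agent.Helper27.DA
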